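import Mathlib
import Pool.Agent.W71.EC.Count

/-!
# `π₀` of the compactly supported symplectomorphism group of `ℝ²ⁿ` is countable

Part (c) of Q1, for every `n` (in particular for `n > 2`).

`Pool.Agent.W71.EC.SympCt n` is the group `G` of the compactly supported symplectomorphisms of
`(ℝ²ⁿ, ω_st)` with the direct limit topology of the `C^∞` topologies of the subgroups supported in
compact sets; `ZerothHomotopy` is the set of path components.

Proof. Let `θ` be supported in `K` with `‖dθ - 1‖ ≤ 1/2`. The midpoint map `m = (1 + θ)/2` is a
diffeomorphism and `X = (θ - 1) ∘ m⁻¹` satisfies `dX ∈ sp(2n)` at every point, so that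
`θ_s = (1 + s X) ∘ (1 - s X)⁻¹`, `0 ≤ s ≤ 1/2`, is a smooth path of symplectomorphisms supported in
`K` from the identity to `θ`. Hence the path components of the subgroup of the elements supported in
`K` are open in the `C¹` topology, which is second countable.
-/

set_option autoImplicit false

namespace Pool.Agent.Results.MP_ec5dc5_gt.CountableComponents

open Pool.Agent.W71.EC

/-- The group `Symp_ct(ℝ²ⁿ, ω_st)` has at most countably many path components. -/
theorem result (n : ℕ) : Countable (ZerothHomotopy (SympCt n)) := countable_pi0 n

end Pool.Agent.Results.MP_ec5dc5_gt.CountableComponents
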