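import Mathlib
import Pool.Agent.W5h83.HG.Prod

/-!
# Families of compactly supported symplectomorphisms of `ℝ²ⁿ`: towards part (a)

Let `G = Symp_ct(ℝ²ⁿ, ω_st)` (`Pool.Agent.W71.EC.SympCt n`, with the direct limit topology of the
`C^∞` topologies of the subgroups supported in compact sets). Two elements `φ, ψ` are *never
opposite* if `Dφ(x) v = -c Dψ(x) v` for no `x`, `v ≠ 0`, `c > 0`. For every `n`:

* `NeverOppositeFamilies`: two maps of a (weakly) locally compact space into `G` which are never
  opposite at any parameter are homotopic, relative to the set where they agree;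
* `Chains`: for maps `f, g` from a compact space `C` to `G` and `A ⊆ C`, `f` and `g` are homotopic
  relative to `A` if and only if they are joined by a finite chain of maps, all equal on `A`, with
  consecutive ones never opposite;
* `Products`: equivalently, `f = θ₁ ⋯ θ_m g` pointwise, where the `θ_i` are maps from `C` to the set
  `𝒩` of the elements of `G` none of whose differentials has a negative real eigenvalue, and
  `θ_i = 1` on `A`;
* `LargeCharts`: for each `ψ` the set of the `φ` never opposite to `ψ` is open and contractible;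
* `CountablyManyClasses`: for compact metrizable `C`, `A ⊆ C` and `f₀ : C → G`, the maps equal to
  `f₀` on `A` fall in countably many homotopy classes relative to `A`;
* `HomotopyGroups`: all homotopy groups `π_k(G, x)` are countable;
* `WeakContractibility`: all `π_k(G, 1)`, `k ≥ 0`, are trivial if and only if for each `k` every map
  `I^k → G` equal to `1` on the boundary of the cube is a finite pointwise product of maps
  `I^k → 𝒩` equal to `1` on the boundary.

Proof. If `φ` and `ψ` are never opposite, then for `|s| ≤ 1/2` the maps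
`ν_s = (1/2 + s) ψ + (1/2 - s) φ` are diffeomorphisms, and the `ν_{-s} ∘ ν_s⁻¹ ∘ ψ`,
`0 ≤ s ≤ 1/2`, are symplectomorphisms (Cayley transforms of a field of matrices in `sp(2n)`) joining
`ψ` to `φ`. They depend continuously on `(s, φ, ψ)` in the `C^∞` topology (joint smoothness of
inverses of families), which gives homotopies of families.
-/

set_option autoImplicit false

open scoped Topology

namespace Pool.Agent.Results.MP_ec5dc5_gt.FamiliesAndHomotopyGroups

open Pool.Agent.W71.EC

universe u

/-- `Dφ(x) v` and `Dψ(x) v` never have opposite directions. -/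
def NeverOpposite {n : ℕ} (φ ψ : SympCt n) : Prop :=
  ∀ x v : R2 n, v ≠ 0 → ∀ c : ℝ, 0 < c →
    fderiv ℝ φ.toEquiv x v ≠ -(c • fderiv ℝ ψ.toEquiv x v)

/-- No differential `Dθ(x)` has a negative real eigenvalue. -/
def NoNegativeEigenvalue {n : ℕ} (θ : SympCt n) : Prop :=
  ∀ x v : R2 n, v ≠ 0 → ∀ c : ℝ, 0 < c → fderiv ℝ θ.toEquiv x v ≠ -(c • v)

/-- An element of the group as a permutation of `ℝ²ⁿ` (the product of permutations is their
composition: `(a * b) x = a (b x)`). -/
def perm {n : ℕ} (φ : SympCt n) : Equiv.Perm (R2 n) := φ.toEquiv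

/-- Never opposite families are homotopic, relative to any set on which they agree. -/
def NeverOppositeFamilies (n : ℕ) : Prop :=
  ∀ (P : Type u) [TopologicalSpace P] [WeaklyLocallyCompactSpace P] (f g : C(P, SympCt n))
    (A : Set P), (∀ p ∈ A, f p = g p) → (∀ p, NeverOpposite (f p) (g p)) → f.HomotopicRel g A

/-- Homotopy classes of maps from compact spaces are the classes of chains. -/
def Chains (n : ℕ) : Prop :=
  ∀ (C : Type u) [TopologicalSpace C] [CompactSpace C] (A : Set C) (f g : C(C, SympCt n)),
    f.HomotopicRel g A ↔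
      Relation.ReflTransGen (fun h h' : C(C, SympCt n) =>
        (∀ c ∈ A, h c = h' c) ∧ ∀ c, NeverOpposite (h c) (h' c)) f g

/-- Homotopy classes of maps from compact spaces in terms of products. -/
def Products (n : ℕ) : Prop :=
  ∀ (C : Type u) [TopologicalSpace C] [CompactSpace C] (A : Set C) (f g : C(C, SympCt n)),
    f.HomotopicRel g A ↔
      ∃ l : List C(C, SympCt n),
        (∀ θ ∈ l, (∀ c ∈ A, perm (θ c) = 1) ∧ ∀ c, NoNegativeEigenvalue (θ c)) ∧
          ∀ c, perm (f c) = (l.map fun θ => perm (θ c)).prod * perm (g c)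

/-- The set of the elements never opposite to a given one is open and contractible. -/
def LargeCharts (n : ℕ) : Prop :=
  ∀ ψ : SympCt n, IsOpen {φ : SympCt n | NeverOpposite φ ψ} ∧
    ContractibleSpace {φ : SympCt n // NeverOpposite φ ψ}

/-- Countably many homotopy classes of maps from compact metrizable spaces. -/
def CountablyManyClasses (n : ℕ) : Prop :=
  ∀ (C : Type u) [TopologicalSpace C] [CompactSpace C] [T2Space C] [SecondCountableTopology C]
    (A : Set C) (f₀ : C(C, SympCt n)), ∃ S : Set C(C, SympCt n), S.Countable ∧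
      (∀ h ∈ S, ∀ c ∈ A, h c = f₀ c) ∧
        ∀ f : C(C, SympCt n), (∀ c ∈ A, f c = f₀ c) → ∃ h ∈ S, f.HomotopicRel h A

/-- All homotopy groups are countable. -/
def HomotopyGroups (n : ℕ) : Prop :=
  ∀ (k : ℕ) (x : SympCt n), Countable (HomotopyGroup (Fin k) (SympCt n) x)

/-- A reformulation of the vanishing of all homotopy groups. -/
def WeakContractibility (n : ℕ) : Prop :=
  ∀ e : SympCt n, perm e = 1 →
    ((∀ k : ℕ, Subsingleton (HomotopyGroup (Fin k) (SympCt n) e)) ↔
      ∀ (k : ℕ) (f : C(Fin k → unitInterval, SympCt n)),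
        (∀ y ∈ Cube.boundary (Fin k), perm (f y) = 1) →
        ∃ l : List C(Fin k → unitInterval, SympCt n),
          (∀ θ ∈ l, (∀ y ∈ Cube.boundary (Fin k), perm (θ y) = 1) ∧
            ∀ y, NoNegativeEigenvalue (θ y)) ∧
            ∀ y, perm (f y) = (l.map fun θ => perm (θ y)).prod)

theorem perm_eq_one {n : ℕ} (φ : SympCt n) : perm φ = 1 ↔ φ = one := by
  constructor
  · intro h
    exact SympCt.ext' fun x => DFunLike.congr_fun h x
  · rintro rfl
    rfl

theorem eq_iff_perm {n : ℕ} (φ ψ : SympCt n) : φ = ψ ↔ perm φ = perm ψ := by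
  constructor
  · rintro rfl
    rfl
  · intro h
    exact SympCt.ext' fun x => DFunLike.congr_fun h x

theorem perm_foldr {n : ℕ} {C : Type*} [TopologicalSpace C] (l : List C(C, SympCt n)) (c : C)
    (a : SympCt n) : perm ((l.map fun θ => θ c).foldr comp a) =
      (l.map fun θ => perm (θ c)).prod * perm a := by
  induction l with
  | nil => rfl
  | cons θ l ih =>
    rw [List.map_cons, List.foldr_cons, List.map_cons, List.prod_cons, mul_assoc, ← ih]
    rfl

/-- **Main theorem.** -/
theorem result (n : ℕ) : NeverOppositeFamilies.{u} n ∧ Chains.{u} n ∧ Products.{u} n ∧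
    LargeCharts n ∧ CountablyManyClasses.{u} n ∧ HomotopyGroups n ∧ WeakContractibility n := by
  refine ⟨?_, ?_, ?_, ?_, ?_, ?_, ?_⟩
  · intro P _ _ f g A hA hn
    exact W5h83.HG.homotopicRel_of_neverOpp f g hn A hA
  · intro C _ _ A f g
    exact W5h83.HG.homotopicRel_iff A f g
  · intro C _ _ A f g
    simp only [perm_eq_one, ← perm_foldr, ← eq_iff_perm]
    exact W5h83.HG.homotopicRel_iff_prod A f g
  · intro ψ
    exact ⟨W5h83.HG.isOpen_neverOpp ψ, W5h83.HG.contractible_neverOpp ψ⟩
  · intro C _ _ _ _ A f₀
    exact W5h83.HG.countable_classes A f₀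
  · intro k x
    exact W5h83.HG.countable_homotopyGroup k x
  · intro e he
    rw [perm_eq_one] at he
    subst he
    have h1 : ∀ (k : ℕ) (l : List C(Fin k → unitInterval, SympCt n)) (y : Fin k → unitInterval),
        (l.map fun θ => perm (θ y)).prod = perm ((l.map fun θ => θ y).foldr comp one) := by
      intro k l y
      rw [perm_foldr, (perm_eq_one one).2 rfl, mul_one]
    simp only [perm_eq_one, h1, ← eq_iff_perm]
    exact W5h83.HG.weaklyContractible_iff n

end Pool.Agent.Results.MP_ec5dc5_gt.FamiliesAndHomotopyGroups
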