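import Mathlib
import Pool.Agent.W71.EC.Fin

/-!
# When are two compactly supported symplectomorphisms of `ℝ²ⁿ` isotopic?

`Pool.Agent.W71.EC.SympCt n` is the group `G` of the compactly supported symplectomorphisms of
`(ℝ²ⁿ, ω_st)` with the direct limit of the `C^∞` topologies. `Joined φ ψ`: there is a path in `G` from
`φ` to `ψ`, that is, `φ` and `ψ` are isotopic through compactly supported symplectomorphisms. Write
`Dφ` for the differential of `φ`. For all `n`:

1. If there are no `x`, `v ≠ 0` and `c ≥ 1` with `Dφ(x) v = - c Dψ(x) v`, then `φ` and `ψ` are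
   isotopic. For `ψ = 1`: if no `Dφ(x)` has a real eigenvalue `≤ -1`, then `φ` is isotopic to the
   identity; for instance if `|Dφ(x) v - v|_x < 2 |v|_x` for all `x` and all `v ≠ 0`, with any norms
   `|·|_x`.
2. More generally, let `S` be a linear map in `sp(2n)`. If
   `Dψ(x) v + (s/2) (1 + S) (Dφ(x) v - Dψ(x) v)` does not vanish for all `x`, `0 ≤ s ≤ 1` and `v ≠ 0`, then `φ`
   and `ψ` are isotopic. In particular `φ` is isotopic to the identity if at every point the block
   `∂Q/∂q` of `Dφ` has no real eigenvalue `≤ 0`.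
3. `φ` and `ψ` are isotopic if and only if there is a finite chain `φ = φ_0, …, φ_m = ψ` in `G` such that
   `Dφ_i(x) v` and `Dφ_{i+1}(x) v` never point in opposite directions. So `G` is path-connected if and
   only if every element of `G` is a finite product of elements whose differentials have no negative
   real eigenvalue.
4. On the other hand nothing follows from smallness in the `C⁰` sense or of the support: every `φ` is
   isotopic to elements `ψ` supported in any given nonempty open set, with `|ψ(x) - x| ≤ ε`, the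
   differentials of which are among those of `φ`.
5. The group of the isotopy classes is commutative.

Proof of 2. Let `θ = φ ψ⁻¹`, `R = (1 + S)/2`. By the continuity method (steps of uniform length, by
compactness) `m = 1 + R (θ - 1)` is a diffeomorphism. The map `X = (θ - 1) ∘ m⁻¹` has differentials in
`sp(2n)`, and `1 - s R DX` is invertible for `0 ≤ s ≤ 1`; since `S` is in `sp(2n)`,
`ω((1 + s (1 - R) DX) u, (1 + s (1 - R) DX) v) = ω((1 - s R DX) u, (1 - s R DX) v)`. Hence
`θ_s = (1 + s (1 - R) X) ∘ (1 - s R X)⁻¹` is a smooth path in `G` from the identity to `θ`.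
-/

set_option autoImplicit false

namespace Pool.Agent.Results.MP_ec5dc5_gt.IsotopyCriteria

open Pool.Agent.W71.EC

/-- the differential `Dφ(x) v` -/
noncomputable abbrev D {n : ℕ} (φ : SympCt n) (x v : R2 n) : R2 n := fderiv ℝ φ.toEquiv x v

/-- `φ` is the identity -/
def IsId {n : ℕ} (φ : SympCt n) : Prop := ∀ x, φ.toEquiv x = x

/-- (1): differentials which are never opposite (with factor at least one) -/
def NeverOpposite (n : ℕ) : Prop :=
  ∀ φ ψ : SympCt n, (∀ x v, v ≠ 0 → ∀ c : ℝ, 1 ≤ c → D φ x v ≠ -(c • D ψ x v)) → Joined φ ψ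

/-- (1) for norms -/
def DistanceTwo (n : ℕ) : Prop :=
  ∀ φ ι : SympCt n, IsId ι → ∀ N : R2 n → Seminorm ℝ (R2 n),
    (∀ x v, v ≠ 0 → N x (D φ x v - v) < 2 * N x v) → Joined φ ι

/-- `S` is in the Lie algebra `sp(2n)` -/
def InLieSp {n : ℕ} (S : R2 n →L[ℝ] R2 n) : Prop := ∀ u v, omega (S u) v + omega u (S v) = 0

/-- (2): the other linear charts -/
def OtherCharts (n : ℕ) : Prop :=
  ∀ (φ ψ : SympCt n) (S : R2 n →L[ℝ] R2 n), InLieSp S →
    (∀ x, ∀ s ∈ Set.Icc (0 : ℝ) 1, ∀ v, v ≠ 0 →
      D ψ x v + (s / 2) • ((D φ x v - D ψ x v) + S (D φ x v - D ψ x v)) ≠ 0) → Joined φ ψ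

/-- (2) for the block `∂Q/∂q` -/
def BlockCriterion (n : ℕ) : Prop :=
  ∀ φ ι : SympCt n, IsId ι →
    (∀ x, ∀ u : Fin n → ℝ, u ≠ 0 → ∀ c : ℝ, 0 ≤ c → (D φ x (u, 0)).1 ≠ -(c • u)) → Joined φ ι

/-- the differentials of `α` and `β` never map a vector to opposite directions -/
def NotOpposite {n : ℕ} (α β : SympCt n) : Prop :=
  ∀ x v, v ≠ 0 → ∀ c : ℝ, 0 < c → D α x v ≠ -(c • D β x v)

/-- (3): the isotopy classes are the classes of chains -/
def Chains (n : ℕ) : Prop :=
  ∀ φ ψ : SympCt n, Joined φ ψ ↔ Relation.ReflTransGen NotOpposite φ ψ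

/-- the differentials of `θ` have no negative real eigenvalue -/
def NoNegativeEigenvalue {n : ℕ} (θ : SympCt n) : Prop :=
  ∀ x v, v ≠ 0 → ∀ c : ℝ, 0 < c → D θ x v ≠ -(c • v)

/-- (3): path-connectedness in terms of products -/
def PathConnectedIff (n : ℕ) : Prop :=
  (∀ φ ψ : SympCt n, Joined φ ψ) ↔ ∀ φ : SympCt n, ∃ l : List (SympCt n),
    (∀ θ ∈ l, NoNegativeEigenvalue θ) ∧ ∀ x, φ.toEquiv x = l.foldr (fun θ y => θ.toEquiv y) x

/-- (4): representatives with small support near to the identity -/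
def SmallRepresentatives (n : ℕ) : Prop :=
  ∀ (φ : SympCt n) (U : Set (R2 n)), IsOpen U → U.Nonempty → ∀ ε : ℝ, 0 < ε →
    ∃ ψ : SympCt n, Joined φ ψ ∧ (∀ x, x ∉ U → ψ.toEquiv x = x) ∧
      (∀ x, ‖ψ.toEquiv x - x‖ ≤ ε) ∧
      ∀ x, ∃ y, fderiv ℝ ψ.toEquiv x = fderiv ℝ φ.toEquiv y

/-- (5): the group of the isotopy classes is commutative -/
def CommutativeClasses (n : ℕ) : Prop :=
  ∀ φ ψ α β : SympCt n, (∀ x, α.toEquiv x = φ.toEquiv (ψ.toEquiv x)) →
    (∀ x, β.toEquiv x = ψ.toEquiv (φ.toEquiv x)) → Joined α β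

theorem result (n : ℕ) :
    NeverOpposite n ∧ DistanceTwo n ∧ OtherCharts n ∧ BlockCriterion n ∧ Chains n ∧
      PathConnectedIff n ∧ SmallRepresentatives n ∧ CommutativeClasses n := by
  refine ⟨fun φ ψ h => (joined_of_not_opposite φ ψ h).symm, ?_,
    fun φ ψ S hS h => (joined_S φ ψ S hS h).symm, ?_, joined_iff, path_connected_iff,
    fun φ U hU hne ε hε => exists_small φ U hU hne ε hε, joined_comm'⟩
  · intro φ ι hι N hN
    rw [eq_one hι]
    refine (joined_of_not_opposite φ one fun x v hv c hc h => ?_).symm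
    rw [one_fderiv] at h
    have h1 := hN x v hv
    have h2 : D φ x v - v = (-(c + 1)) • v := by
      change fderiv ℝ φ.toEquiv x v - v = _
      rw [h]
      module
    rw [h2, map_smul_eq_mul, norm_neg, Real.norm_eq_abs, abs_of_pos (by linarith)] at h1
    have h3 : 0 ≤ N x v := apply_nonneg _ _
    nlinarith
  · intro φ ι hι h
    rw [eq_one hι]
    exact (joined_block φ h).symm

end Pool.Agent.Results.MP_ec5dc5_gt.IsotopyCriteria
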