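import Mathlib
import Pool.Agent.W5h49.EC.FinalFam
import Pool.Agent.W5h49.EC.NROpen
import Pool.Agent.W5h49.EC.CA1
import Pool.Agent.W5h49.EC.CA2
import Pool.Agent.W5h49.EC.CA3
import Pool.Agent.W5h49.EC.CA4
import Pool.Agent.W5h49.EC.CA5
import Pool.Agent.W5h49.EC.EnergyE

/-!
# Averaged differentials and homotopies of compactly supported symplectomorphisms

`G = Symp_ct(ℝ²ⁿ)` with the direct limit topology (as in `CountableComponents`). If the averages of
the differentials of a compact family in `G` over the cubes of all sizes do not reverse `ω` in any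
direction, the family is null homotopic. The homotopy class of a family whose differentials have
small mean oscillation at the scales up to `R` is determined by its values up to an error of order
`R`.

Proof. Mollify `φ` at all scales `r ≤ R` (the maps `φ_r = φ * η_r` are equal to the identity outside
a compact set, but neither symplectic nor known to be bijective). If their differentials, which are
averages of the differentials of `φ`, do not reverse `ω`, the forms `(1 - s) ω + s φ_r^* ω` are
nondegenerate, the maps `φ_r` are diffeomorphisms, and Moser's argument corrects the whole family of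
mollified maps to symplectomorphisms. As `Dφ` is symplectic, the variance identity
`⟨ω(Dφ v, Dφ w)⟩ - ω(⟨Dφ⟩ v, ⟨Dφ⟩ w) = ⟨ω((Dφ - ⟨Dφ⟩) v, (Dφ - ⟨Dφ⟩) w)⟩` shows that `φ_r^* ω` tames
the standard complex structure when the mean square oscillation is less than `1`; at the scale `R`
two mollified maps are `C¹`-close. By the Poincaré inequality on cubes the mean oscillation is
less than `1` when the scale invariant energy `∫ |D²φ|²ⁿ` is less than `(2 n 4ⁿ)⁻ⁿ`, so that every
element of `G` which is not isotopic to the identity has at least this energy.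
-/

set_option autoImplicit false

open Pool.Agent.W71.EC MeasureTheory

namespace Pool.Agent.Results.MP_ec5dc5_gt.SmallMeanOscillation

variable {n : ℕ}

/-- The square of the Euclidean norm of a vector of `ℝ²ⁿ`. -/
def sq (v : R2 n) : ℝ := ∑ i, (v.1 i ^ 2 + v.2 i ^ 2)

/-- The directional derivative `D_v φ (x)`. -/
noncomputable def dv (φ : SympCt n) (v x : R2 n) : R2 n := fderiv ℝ φ.toEquiv x v

/-- The average of `D_v φ` over the cube with centre `x` and half-side `r` (the balls of `R2 n` are
cubes with sides parallel to the axes), as a function of `v`. -/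
noncomputable def cubeMean (φ : SympCt n) (r : ℝ) (x v : R2 n) : R2 n :=
  ⨍ y in Metric.ball x r, dv φ v y

/-- The map `A` does not reverse `ω` in any direction `v`: there are no `v ≠ 0` and `c ≥ 0` with
`ω(A v, A w) = - c ω(v, w)` for all `w`. -/
def NoReversal (A : R2 n → R2 n) : Prop :=
  ¬ ∃ v : R2 n, v ≠ 0 ∧ ∃ c : ℝ, 0 ≤ c ∧ ∀ w : R2 n, omega (A v) (A w) = -c * omega v w

/-- The directional derivatives of `φ` have mean square oscillation at most `θ` on the cubes of
half-side at most `R`: on every such cube `Q` and for every `v`, the average over `Q` of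
`|D_v φ - (D_v φ)_Q|²` is at most `θ |v|²`. -/
def SmallOsc (θ R : ℝ) (φ : SympCt n) : Prop :=
  ∀ r : ℝ, 0 < r → r ≤ R → ∀ x v : R2 n,
    ⨍ y in Metric.ball x r, sq (dv φ v y - cubeMean φ r x v) ≤ θ * sq v

/-- The operator norm of the second derivative. -/
noncomputable def secondNorm (φ : SympCt n) (y : R2 n) : ℝ := ‖iteratedFDeriv ℝ 2 φ.toEquiv y‖

/-- A family with no reversal on any cube is null homotopic. -/
def NoReversalNull (n : ℕ) : Prop :=
  ∀ (C : Type) [TopologicalSpace C] [CompactSpace C] (f : C(C, SympCt n)),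
    (∀ (p : C) (r : ℝ), 0 < r → ∀ x, NoReversal (cubeMean (f p) r x)) →
    f.HomotopicRel (ContinuousMap.const C one) {p | f p = one}

/-- Two families with no reversal on the cubes of half-side at most `R p`. -/
def NoReversalPair (n : ℕ) : Prop :=
  ∀ (C : Type) [TopologicalSpace C] [CompactSpace C] (f g : C(C, SympCt n)) (R : C(C, ℝ)),
    (∀ p, 0 ≤ R p) → (∀ p, R p = 0 → f p = g p) →
    (∀ (p : C) (r : ℝ), 0 < r → r ≤ R p → ∀ x, NoReversal (cubeMean (f p) r x)) →
    (∀ (p : C) (r : ℝ), 0 < r → r ≤ R p → ∀ x, NoReversal (cubeMean (g p) r x)) →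
    (∀ (p : C) (t : ℝ), 0 ≤ t → t ≤ 1 → 0 < R p → ∀ x, NoReversal (fun v =>
      (1 - t) • cubeMean (f p) (R p) x v + t • cubeMean (g p) (R p) x v)) →
    f.HomotopicRel g {p | R p = 0 ∨ (f p = one ∧ g p = one)}

/-- Two families with small mean oscillation up to the scale `R`, close at the scale `R`. -/
def OscPair (n : ℕ) : Prop :=
  ∀ θ : ℝ, θ < 1 → ∃ c : ℝ, 0 < c ∧ ∀ R : ℝ, 0 < R →
    ∀ (C : Type) [TopologicalSpace C] [CompactSpace C] (f g : C(C, SympCt n)),
      (∀ p, SmallOsc θ R (f p)) → (∀ p, SmallOsc θ R (g p)) →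
      (∀ p x, ⨍ y in Metric.ball x R, ‖(f p).toEquiv y - (g p).toEquiv y‖ ≤ c * R) →
      f.HomotopicRel g {p | f p = g p}

/-- Finitely many homotopy classes of families, relative to a set. -/
def OscFinite (n : ℕ) : Prop :=
  ∀ θ : ℝ, θ < 1 → ∀ R L : ℝ, 0 < R → 0 < L → ∀ K : Set (R2 n), IsCompact K →
    ∀ (C : Type) [MetricSpace C] [CompactSpace C] (A : Set C) (f₀ : C(C, SympCt n)),
      ∃ S : Finset C(C, SympCt n), ∀ f : C(C, SympCt n),
        (∀ p, f p ∈ supportedIn K) → (∀ p, SmallOsc θ R (f p)) →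
        (∀ p q x, ‖(f p).toEquiv x - (f q).toEquiv x‖ ≤ L * dist p q) →
        (∀ p ∈ A, f p = f₀ p) → ∃ g ∈ S, f.HomotopicRel g A

/-- Near isometries. -/
def NearIsometries (n : ℕ) : Prop :=
  ∃ ε : ℝ, 0 < ε ∧ ∀ (C : Type) [TopologicalSpace C] [CompactSpace C] (f g : C(C, SympCt n)),
    (∀ p x v, sq (dv (f p) v x) ≤ (1 + ε) * sq (dv (g p) v x)) →
    f.HomotopicRel g {p | f p = g p}

/-- The energy gap: a family is null homotopic if each of its elements has a second derivative with
scale invariant mean square on all cubes less than `1 / (8 n 4ⁿ)`, or `∫ |D²φ|²ⁿ < (2 n 4ⁿ)⁻ⁿ`. -/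
def EnergyGap (n : ℕ) : Prop :=
  ∀ (C : Type) [TopologicalSpace C] [CompactSpace C] (f : C(C, SympCt n)),
    (∀ p, (∀ r : ℝ, 0 < r → ∀ x : R2 n,
        r ^ 2 * ⨍ y in Metric.ball x r, secondNorm (f p) y ^ 2 < 1 / (8 * n * 4 ^ n)) ∨
      ∫ y, secondNorm (f p) y ^ (2 * n) < (1 / (2 * n * 4 ^ n)) ^ n) →
    f.HomotopicRel (ContinuousMap.const C one) {p | f p = one}

theorem secondNorm_eq (φ : SympCt n) (y : R2 n) :
    secondNorm φ y = Pool.Agent.W5h49.EC.en φ y := by
  unfold secondNorm Pool.Agent.W5h49.EC.en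
  rw [← norm_iteratedFDeriv_fderiv, norm_iteratedFDeriv_one]

/-- **Averaged differentials and homotopies.** -/
theorem result (n : ℕ) : NoReversalNull n ∧ NoReversalPair n ∧ OscPair n ∧ OscFinite n ∧
    NearIsometries n ∧ EnergyGap n := by
  have T : Pool.Agent.W5h49.EC.CubeTasks n :=
    ⟨Pool.Agent.W5h49.EC.nr_open n, Pool.Agent.W5h49.EC.ca1 n, Pool.Agent.W5h49.EC.ca2 n,
      Pool.Agent.W5h49.EC.ca3 n, Pool.Agent.W5h49.EC.ca4 n, Pool.Agent.W5h49.EC.ca5 n⟩
  have hM := Pool.Agent.W5h49.EC.moljc2 n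
  have hS := Pool.Agent.W5h49.EC.supc n
  have hCA : ∀ (φ : SympCt n) (r : ℝ), 0 < r → ∀ x,
      cubeMean φ r x = Pool.Agent.W5h49.EC.CA φ r x := fun φ r hr x =>
    funext fun v => ((T.ca2 φ).1 r hr x v).symm
  refine ⟨?_, ?_, ?_, ?_, ?_, ?_⟩
  · intro C _ _ f h
    refine Pool.Agent.W5h49.EC.cube_all_scales T C f fun p r hr x => ?_
    have := h p r hr x
    rwa [hCA _ _ hr] at this
  · intro C _ _ f g R hR hR0 hf hg hfg
    refine Pool.Agent.W5h49.EC.cube_kernel T C f g R hR hR0 (fun p r hr hr' x => ?_)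
      (fun p r hr hr' x => ?_) (fun p t ht0 ht1 hp x => ?_)
    · have := hf p r hr hr' x
      rwa [hCA _ _ hr] at this
    · have := hg p r hr hr' x
      rwa [hCA _ _ hr] at this
    · have := hfg p t ht0 ht1 hp x
      rw [hCA _ _ hp, hCA _ _ hp] at this
      exact this
  · intro θ hθ
    exact Pool.Agent.W5h49.EC.two_maps_fam2 hM hS hθ
  · intro θ hθ R L hR hL K hK C _ _ A f₀
    exact Pool.Agent.W5h49.EC.finfam n (Pool.Agent.W5h49.EC.kerfam hM) θ hθ R L hR hL K hK C A f₀
  · exact Pool.Agent.W5h49.EC.near_fam (Pool.Agent.W5h49.EC.tasks n)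
  · intro C _ _ f h
    simp only [secondNorm_eq] at h
    exact Pool.Agent.W5h49.EC.energy_gap T C f h

end Pool.Agent.Results.MP_ec5dc5_gt.SmallMeanOscillation
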